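/-
ROW SV Blk (about 100 lines). The super graph of a random set of pairs between groups is a binomial random graph.
V has groups `gr : V → ℕ`, the clique of `a` lies in the group `a` (hκ), κ a is injective. E₀ contains all pairs between different groups (hE).
PROOF. For e : Sym2 (Fin N') put Ae e := univ.filter over Sym2 V of {d | ∃ a b x y, a ≠ b ∧ e = s(a,b) ∧ d = s(κ a x, κ b y)} (or: the image of (x, y) -> s(κ a x, κ b y) for a representative). #(Ae e) = m^2 for e in pairs (Fin N') (the map (x,y) -> s(κ a x, κ b y) is injective as the groups a ≠ b differ), Ae e ⊆ E₀, disjoint for different e (the set of groups of the ends of d is {a, b}).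
 rsub_blocks (Pool/Agent/H82/RG/Prob.lean) with I := pairs (Fin N'), s := m^2: the set {e ∈ pairs (Fin N') | Ae e ⊆ R o} is RSub with (p^(m^2)). Compare with rsub_gnp (V := Fin N') p' (H9/KR/Gnp.lean; gnp_ed_sub) by pr_unique (Marg.lean) for the predicate Q S := P' (SimpleGraph.fromEdgeSet S), and real_eq_pr p' (H9/KR/Gnp.lean). sup (gR (R o)) κ has edge a b iff a ≠ b and Ae s(a,b) ⊆ R o.
-/
import Pool.Agent.H82.RG.Marg
import Pool.Agent.H82.RG.Prob
import Pool.Agent.H82.SV.Red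

set_option autoImplicit false
set_option linter.unusedSectionVars false

open Finset

namespace Pool.Agent.H82.SV

open Pool.Agent.H9.KR Pool.Agent.H82.RG

variable {Ω V : Type} [Fintype Ω] [Fintype V] [DecidableEq V]

/-- The graph of a set of pairs. -/
def gR (S : Finset (Sym2 V)) : SimpleGraph V := SimpleGraph.fromEdgeSet (↑S : Set (Sym2 V))

/-- The pairs between the cliques of the two ends of `e`. -/
noncomputable def BlkA {N' m : ℕ} (κ : Fin N' → Fin m → V) (e : Sym2 (Fin N')) : Finset (Sym2 V) := by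
  classical
  exact univ.filter fun d => ∃ (a b : Fin N') (x y : Fin m), a ≠ b ∧ s(a, b) = e ∧ s(κ a x, κ b y) = d

theorem Blk_mem {N' m : ℕ} (κ : Fin N' → Fin m → V) (e : Sym2 (Fin N')) (d : Sym2 V) :
    d ∈ BlkA κ e ↔ ∃ (a b : Fin N') (x y : Fin m), a ≠ b ∧ s(a, b) = e ∧ s(κ a x, κ b y) = d := by
  classical
  unfold BlkA
  rw [mem_filter]
  exact ⟨fun h => h.2, fun h => ⟨mem_univ _, h⟩⟩

theorem Blk_mem' {N' m : ℕ} (κ : Fin N' → Fin m → V) {a b : Fin N'} (hab : a ≠ b) (d : Sym2 V) :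
    d ∈ BlkA κ s(a, b) ↔ ∃ (x y : Fin m), s(κ a x, κ b y) = d := by
  rw [Blk_mem]
  constructor
  · rintro ⟨a', b', x, y, _, h2, h3⟩
    rcases Sym2.eq_iff.1 h2 with ⟨rfl, rfl⟩ | ⟨rfl, rfl⟩
    · exact ⟨x, y, h3⟩
    · exact ⟨y, x, by rw [← h3, Sym2.eq_swap]⟩
  · rintro ⟨x, y, h⟩
    exact ⟨a, b, x, y, hab, rfl, h⟩

theorem Blk_map {N' m : ℕ} {gr : V → ℕ} {κ : Fin N' → Fin m → V} (hκ : ∀ a e, gr (κ a e) = (a : ℕ))
    {e : Sym2 (Fin N')} {d : Sym2 V} (h : d ∈ BlkA κ e) :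
    Sym2.map gr d = Sym2.map (fun a : Fin N' => (a : ℕ)) e := by
  obtain ⟨a, b, x, y, _, rfl, rfl⟩ := (Blk_mem κ e d).1 h
  rw [Sym2.map_mk, Sym2.map_mk]
  simp [hκ]

theorem Blk_card {N' m : ℕ} {gr : V → ℕ} {κ : Fin N' → Fin m → V}
    (hinj : ∀ a, Function.Injective (κ a)) (hκ : ∀ a e, gr (κ a e) = (a : ℕ))
    {e : Sym2 (Fin N')} (he : e ∈ pairs (Fin N')) : (BlkA κ e).card = m ^ 2 := by
  classical
  induction e using Sym2.ind with
  | _ a b =>
    have hab : a ≠ b := mem_pairs.1 he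
    have h1 : BlkA κ s(a, b) = (univ : Finset (Fin m × Fin m)).image fun z => s(κ a z.1, κ b z.2) := by
      ext d
      rw [Blk_mem' κ hab, mem_image]
      constructor
      · rintro ⟨x, y, h⟩
        exact ⟨(x, y), mem_univ _, h⟩
      · rintro ⟨z, _, h⟩
        exact ⟨z.1, z.2, h⟩
    rw [h1, card_image_of_injective]
    · rw [card_univ, Fintype.card_prod, Fintype.card_fin, sq]
    · intro z z' hz
      have hz : s(κ a z.1, κ b z.2) = s(κ a z'.1, κ b z'.2) := hz
      rcases Sym2.eq_iff.1 hz with ⟨h2, h3⟩ | ⟨h2, h3⟩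
      · exact Prod.ext (hinj a h2) (hinj b h3)
      · exfalso
        have h4 := congrArg gr h2
        rw [hκ, hκ] at h4
        exact hab (Fin.ext h4)

theorem blk_pr {w : Ω → ℝ} {R : Ω → Finset (Sym2 V)} {E₀ : Finset (Sym2 V)} {N' m : ℕ}
    (p p' : unitInterval) (hp : (p' : ℝ) = (p : ℝ) ^ (m ^ 2)) (h : RSub w R E₀ (p : ℝ))
    (gr : V → ℕ) (κ : Fin N' → Fin m → V) (hinj : ∀ a, Function.Injective (κ a))
    (hκ : ∀ a e, gr (κ a e) = (a : ℕ)) (hE : ∀ u v : V, gr u ≠ gr v → s(u, v) ∈ E₀)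
    (P' : SimpleGraph (Fin N') → Prop) :
    pr w (fun o => P' (sup (gR (R o)) κ)) = (SimpleGraph.binomialRandom (Fin N') p').real {G | P' G} := by
  classical
  have hb := rsub_blocks h (pairs (Fin N')) (BlkA κ) (m ^ 2)
    (fun e _ d hd => by
      obtain ⟨a, b, x, y, hab, _, rfl⟩ := (Blk_mem κ e d).1 hd
      refine hE _ _ ?_
      rw [hκ, hκ]
      exact fun h1 => hab (Fin.ext h1))
    (fun e he => Blk_card hinj hκ he)
    (fun e _ e' _ hne => by
      rw [disjoint_left]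
      intro d hd hd'
      refine hne (Sym2.map.injective (f := fun a : Fin N' => (a : ℕ)) Fin.val_injective ?_)
      rw [← Blk_map hκ hd, ← Blk_map hκ hd'])
  rw [← hp] at hb
  have hu := pr_unique hb (rsub_gnp (V := Fin N') p') (fun o => filter_subset _ _) gnp_ed_sub
    (fun S => P' (SimpleGraph.fromEdgeSet (↑S : Set (Sym2 (Fin N')))))
  rw [real_eq_pr p' P']
  have h1 : (fun o => P' (sup (gR (R o)) κ)) = fun o => P' (SimpleGraph.fromEdgeSet
      (↑((pairs (Fin N')).filter fun i => BlkA κ i ⊆ R o) : Set (Sym2 (Fin N')))) := by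
    funext o
    congr 1
    ext a b
    rw [SimpleGraph.fromEdgeSet_adj, Finset.mem_coe, mem_filter, mem_pairs]
    constructor
    · rintro ⟨h2, h3⟩
      refine ⟨⟨h2, fun d hd => ?_⟩, h2⟩
      obtain ⟨x, y, rfl⟩ := (Blk_mem' κ h2 d).1 hd
      have h4 := h3 x y
      unfold gR at h4
      rw [SimpleGraph.fromEdgeSet_adj, Finset.mem_coe] at h4
      exact h4.1
    · rintro ⟨⟨h2, h3⟩, _⟩
      refine ⟨h2, fun x y => ?_⟩
      unfold gR
      rw [SimpleGraph.fromEdgeSet_adj, Finset.mem_coe]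
      refine ⟨h3 ((Blk_mem' κ h2 _).2 ⟨x, y, rfl⟩), fun h4 => h2 (Fin.ext ?_)⟩
      rw [← hκ a x, ← hκ b y, h4]
  have h2 : (fun G : SimpleGraph (Fin N') => P' (SimpleGraph.fromEdgeSet
      (↑(ed G) : Set (Sym2 (Fin N'))))) = P' := by
    funext G
    congr 1
    ext a b
    rw [SimpleGraph.fromEdgeSet_adj, Finset.mem_coe, mem_ed]
    exact ⟨fun h => h.1, fun h => ⟨h, h.ne⟩⟩
  rw [h1, hu, h2]

end Pool.Agent.H82.SV
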