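/-
ROW SV Clq (about 110 lines). All groups contain m-cliques with high probability. Groups of size s = m t, the group a is {v | v / (m t) = a}, its e-th part is {v | v / t = m a + e} (e < m), of size t (all v < N' m t <= N).
PROOF. w, ed from rsub_gnp p, real_eq_pr. reg_unif (Pool/Agent/H82/RG/Unif.lean) with ι := Fin N' × Fin m, I := univ, U (a,e) := univ.filter (fun v : Fin N => v / t = m a + e), n := t, s := m: outside an event of probability <= (N' m) ((m+1) N^m (2 exp (-(t p^m / 8)))) every U i and S disjoint from U i with #S <= m satisfy n p^#S / 2 < cnb, so (p > 0, t >= 1) some u ∈ U i is adjacent to all of S.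
 Then every group has an m-clique: build c 0, c 1, ..., c e in the e-th part, adjacent to the previous ones (induction on the number of vertices; v / (m t) = (v / t) / m = a).
-/
import Pool.Agent.H82.RG.Unif
import Pool.Agent.H9.KR.Gnp

set_option autoImplicit false
set_option linter.unusedSectionVars false

open Finset

namespace Pool.Agent.H82.SV

open Pool.Agent.H9.KR Pool.Agent.H82.RG

theorem clq_card {N t q : ℕ} (ht : 1 ≤ t) (hq : (q + 1) * t ≤ N) :
    ((univ : Finset (Fin N)).filter (fun v : Fin N => (v : ℕ) / t = q)).card = t := by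
  have h1 : (((univ : Finset (Fin N)).filter (fun v : Fin N => (v : ℕ) / t = q)).image (fun v : Fin N => (v : ℕ))).card =
      ((univ : Finset (Fin N)).filter (fun v : Fin N => (v : ℕ) / t = q)).card :=
    card_image_of_injective _ Fin.val_injective
  have h2 : ((univ : Finset (Fin N)).filter (fun v : Fin N => (v : ℕ) / t = q)).image (fun v : Fin N => (v : ℕ)) =
      Ico (q * t) ((q + 1) * t) := by
    ext x
    rw [mem_image, mem_Ico]
    constructor
    · rintro ⟨v, hv, rfl⟩
      rw [mem_filter] at hv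
      have h3 := hv.2
      constructor
      · exact (Nat.le_div_iff_mul_le ht).1 h3.ge
      · exact (Nat.div_lt_iff_lt_mul ht).1 (by omega)
    · rintro ⟨h3, h4⟩
      refine ⟨⟨x, lt_of_lt_of_le h4 hq⟩, mem_filter.2 ⟨mem_univ _, ?_⟩, rfl⟩
      have h5 := (Nat.le_div_iff_mul_le ht).2 h3
      have h6 := (Nat.div_lt_iff_lt_mul ht).2 h4
      show x / t = q
      omega
  rw [← h1, h2, Nat.card_Ico, add_mul, one_mul, Nat.add_sub_cancel_left]

theorem clq_cnb {V : Type} [Fintype V] [DecidableEq V] {R : Finset (Sym2 V)} {U S : Finset V}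
    (h : 0 < cnb R U S) : ∃ u ∈ U, ∀ s ∈ S, s(u, s) ∈ R := by
  unfold cnb at h
  obtain ⟨u, hu⟩ := card_pos.1 h
  rw [mem_filter] at hu
  exact ⟨u, hu.1, hu.2⟩

/-- The `e`-th part of the group `a`. -/
def clqU (N m t : ℕ) (a e : ℕ) : Finset (Fin N) := univ.filter (fun v : Fin N => (v : ℕ) / t = m * a + e)

theorem clq_build {N m t : ℕ} (R : Finset (Sym2 (Fin N))) (a : ℕ)
    (h : ∀ e < m, ∀ S : Finset (Fin N), Disjoint (clqU N m t a e) S → S.card ≤ m →
      0 < cnb R (clqU N m t a e) S) (hm : 1 ≤ m) :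
    ∀ k ≤ m, ∃ c : ℕ → Fin N, (∀ e < k, c e ∈ clqU N m t a e) ∧
      ∀ e < k, ∀ f < e, s(c e, c f) ∈ R := by
  intro k
  induction k with
  | zero =>
    intro _
    have h0 := h 0 (by omega) ∅ (disjoint_empty_right _) (by simp)
    obtain ⟨u, _⟩ := clq_cnb h0
    exact ⟨fun _ => u, fun e he => absurd he (Nat.not_lt_zero _), fun e he => absurd he (Nat.not_lt_zero _)⟩
  | succ k ih =>
    intro hk
    obtain ⟨c, hc1, hc2⟩ := ih (by omega)
    have hd : Disjoint (clqU N m t a k) ((range k).image c) := by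
      rw [disjoint_left]
      intro u hu hu'
      obtain ⟨e, he, rfl⟩ := mem_image.1 hu'
      have h1 := (mem_filter.1 hu).2
      have h2 := (mem_filter.1 (hc1 e (mem_range.1 he))).2
      have h3 := mem_range.1 he
      omega
    have hS : ((range k).image c).card ≤ m := card_image_le.trans (by rw [card_range]; omega)
    have h0 := h k (by omega) _ hd hS
    obtain ⟨u, hu⟩ := clq_cnb h0
    refine ⟨Function.update c k u, fun e he => ?_, fun e he f hf => ?_⟩
    · by_cases hek : e = k
      · subst hek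
        rw [Function.update_self]
        exact hu.1
      · rw [Function.update_of_ne hek]
        exact hc1 e (by omega)
    · rw [Function.update_of_ne (show f ≠ k by omega)]
      by_cases hek : e = k
      · subst hek
        rw [Function.update_self]
        exact hu.2 _ (mem_image_of_mem _ (mem_range.2 hf))
      · rw [Function.update_of_ne hek]
        exact hc2 e (by omega) f hf

theorem clq_pr {N N' m t : ℕ} (hm : 1 ≤ m) (ht : 1 ≤ t) (hN : N' * (m * t) ≤ N) (hN0 : 1 ≤ N)
    (p : unitInterval) (hp : 0 < (p : ℝ)) :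
    (SimpleGraph.binomialRandom (Fin N) p).real {G | ∃ a : Fin N', ¬ ∃ c : Fin m → Fin N,
        (∀ e, (c e : ℕ) / (m * t) = (a : ℕ)) ∧ ∀ e f, e ≠ f → G.Adj (c e) (c f)} ≤
      (N' * m : ℕ) * ((m + 1) * (N : ℝ) ^ m * (2 * Real.exp (-(t * (p : ℝ) ^ m / 8)))) := by
  rw [real_eq_pr]
  have hR := rsub_gnp (V := Fin N) p
  have hcard : 0 < Fintype.card (Fin N) := by rw [Fintype.card_fin]; omega
  have hU : ∀ i ∈ (univ : Finset (Fin N' × Fin m)), (clqU N m t (i.1 : ℕ) (i.2 : ℕ)).card = t := by
    intro i _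
    refine clq_card ht (le_trans ?_ hN)
    have h1 : m * (i.1 : ℕ) + (i.2 : ℕ) + 1 ≤ N' * m := by
      have h2 := i.2.2
      have h3 : (i.1 : ℕ) + 1 ≤ N' := i.1.2
      nlinarith
    calc (m * (i.1 : ℕ) + (i.2 : ℕ) + 1) * t ≤ (N' * m) * t := Nat.mul_le_mul_right _ h1
      _ = N' * (m * t) := by ring
  have h1 := reg_unif hR hp p.2.2 (univ : Finset (Fin N' × Fin m)) (fun i => clqU N m t (i.1 : ℕ) (i.2 : ℕ)) t m ht hcard hU
    (fun u v huv => mem_pairs.2 huv)
  have h2 : ((univ : Finset (Fin N' × Fin m)).card : ℝ) = ((N' * m : ℕ) : ℝ) := by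
    rw [card_univ, Fintype.card_prod, Fintype.card_fin, Fintype.card_fin]
  rw [h2, Fintype.card_fin] at h1
  refine le_trans (pr_mono hR.nonneg ?_) h1
  rintro G ⟨a, ha⟩
  by_contra hcon
  apply ha
  have h3 : ∀ e < m, ∀ S : Finset (Fin N), Disjoint (clqU N m t a e) S → S.card ≤ m →
      0 < cnb (ed G) (clqU N m t a e) S := by
    intro e he S hd hS
    by_contra h0
    apply hcon
    have h4 : cnb (ed G) (clqU N m t a e) S = 0 := by omega
    refine ⟨(a, ⟨e, he⟩), mem_univ _, S, hd, hS, Or.inl ?_⟩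
    show ((cnb (ed G) (clqU N m t a e) S : ℕ) : ℝ) ≤ _
    rw [h4]
    have h5 : 0 < (p : ℝ) ^ S.card := pow_pos hp _
    push_cast
    positivity
  obtain ⟨c, hc1, hc2⟩ := clq_build (ed G) (a : ℕ) h3 hm m le_rfl
  refine ⟨fun e => c e, fun e => ?_, fun e f hef => ?_⟩
  · have h5 := (mem_filter.1 (hc1 e e.2)).2
    have h6 : ((c e : Fin N) : ℕ) / (m * t) = ((c e : Fin N) : ℕ) / t / m := by
      rw [Nat.div_div_eq_div_mul, mul_comm t m]
    rw [h6, h5]
    rw [Nat.mul_add_div (by omega)]
    rw [Nat.div_eq_of_lt e.2, add_zero]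
  · rcases lt_or_gt_of_ne (fun h => hef (Fin.ext h) : (e : ℕ) ≠ f) with h | h
    · exact (mem_ed.1 (hc2 f f.2 e h)).symm
    · exact mem_ed.1 (hc2 e e.2 f h)

end Pool.Agent.H82.SV
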