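/-
ROW SV Cnd (about 60 lines). Conditioning a random set on its part in E1.
PROOF. W := pr w (R o ∩ E1 = T). By rsub_law0 (Pool/Agent/H82/RG/Marg.lean) for S := T ∪ A, A ⊆ E₀ \ E1: pr w (T ∪ A ⊆ R o and E1 \ T disjoint from R o) = p^(#T + #A) (1-p)^#(E1 \ T); the event is the same as R o ∩ E1 = T and A ⊆ R o. For A = ∅: W = p^#T (1-p)^#(E1 \ T). So the conditional probability of A ⊆ R o \ E1 is p^#A.
-/
import Pool.Agent.H82.RG.Marg

set_option autoImplicit false
set_option linter.unusedSectionVars false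

open Finset

namespace Pool.Agent.H82.SV

open Pool.Agent.H9.KR Pool.Agent.H82.RG

variable {Ω E : Type} [Fintype Ω] [DecidableEq E]

theorem rsub_cond {w : Ω → ℝ} {R : Ω → Finset E} {E₀ : Finset E} {p : ℝ} (h : RSub w R E₀ p)
    (hR : ∀ o, R o ⊆ E₀) (E1 : Finset E) (hE1 : E1 ⊆ E₀) (T : Finset E) (hT : T ⊆ E1)
    (hW : 0 < pr w (fun o => R o ∩ E1 = T)) :
    RSub (fun o => if R o ∩ E1 = T then w o / pr w (fun o => R o ∩ E1 = T) else 0)
      (fun o => R o \ E1) (E₀ \ E1) p := by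
  sorry

end Pool.Agent.H82.SV
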