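/-
ROW SV Dvd (about 30 lines). A group refutation with a multiple of R groups is one with R groups.
PROOF. C = R d. split: F' b u := sum over the a : Fin C with a % R = b of F a u; if i % C = a then i % R = a % R (Nat.mod_mod_of_dvd), so F' b depends only on the u i with i % R = b; the sum over b of F' b is the sum over a (Finset.sum_fiberwise). step, last unchanged.
-/
import Pool.Agent.H49.RG.Stmt

set_option autoImplicit false

namespace Pool.Agent.H82.SV

open Finset Pool.Agent.H49.RG

theorem group_dvd {N k R C q S : ℕ} (hR : 1 ≤ R) (h : R ∣ C) (G : SimpleGraph (Fin N))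
    {f : Fin S → (Fin k → Fin N) → ℝ} (hf : GroupRefutation (k := k) G C q S f) :
    GroupRefutation (k := k) G R q S f := by
  refine ⟨fun s => ?_, hf.step, hf.last⟩
  obtain ⟨F, hF, hsum⟩ := hf.split s
  let g : Fin C → Fin R := fun a => ⟨(a : ℕ) % R, Nat.mod_lt _ hR⟩
  refine ⟨fun b u => ∑ a ∈ univ.filter (fun a => g a = b), F a u, ?_, ?_⟩
  · intro b u u' huu
    refine Finset.sum_congr rfl fun a ha => hF a u u' fun i hi => huu i ?_
    have hab : (a : ℕ) % R = b := by
      have := (Finset.mem_filter.mp ha).2
      exact congrArg Fin.val this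
    rw [← hab, ← hi, Nat.mod_mod_of_dvd _ h]
  · intro u
    rw [hsum u]
    exact (Finset.sum_fiberwise univ g (fun a => F a u)).symm

end Pool.Agent.H82.SV
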