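/-
ROW SV Num (about 110 lines). Numbers of the super-vertices: t = sqrt (sqrt N), N' = N / (m t).
PROOF. Let r := Nat.sqrt N, t := Nat.sqrt r: t^2 <= r, r^2 <= N, so t^4 <= N < (t+1)^4 ((r+1)^2 > N and (t+1)^2 > r, so (t+1)^2 >= r + 1), t >= 1, and (t+1)^4 <= 16 t^4. N' (m t) <= N trivial. N' + 1 > N / (m t) >= t^3 / m, so N' >= t^3 / (2 m) for t large, N'^2 >= t^6 / (4 m^2) >= 2 * 16 t^4 >= 2 N when t^2 >= 128 m^2.
 The exponential: p^m >= N^(-1/8) >= (16 t^4)^(-1/8) >= 1 / (2 t^(1/2)) (real powers; or use hypothesis hp in the form N^(-1/8) <= p^m), so t p^m / 8 >= t^(1/2) / 16. N' m (m+1) N^m 2 <= 2 (m+1)^2 N^(m+1) and N^(m+2) <= (16 t^4)^(m+2): need 4 (m+1)^2 (16 t^4)^(m+2) exp (-(t^(1/2)) / 16) <= 1: true for t >= t0 (m) (e.g. exp x >= x^n / n! with x = t^(1/2) / 16, n = 8 (m+2) + 2; or isLittleO / tendsto lemmas: Real.tendsto_pow_mul_exp_neg_atTop_nhds_zero). N0 := any number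 making t >= t0.
-/
import Mathlib

set_option autoImplicit false

namespace Pool.Agent.H82.SV

theorem num_exp (C : ℝ) (n : ℕ) : ∃ U : ℝ, ∀ u : ℝ, U ≤ u → C * (u ^ n * Real.exp (-u)) ≤ 1 := by
  have h := (Real.tendsto_pow_mul_exp_neg_atTop_nhds_zero n).const_mul C
  rw [mul_zero] at h
  have h2 := h.eventually (Iic_mem_nhds (zero_lt_one))
  obtain ⟨U, hU⟩ := Filter.eventually_atTop.1 h2
  exact ⟨U, fun u hu => hU u hu⟩

theorem num_sqrt (N : ℕ) : (Nat.sqrt (Nat.sqrt N)) ^ 4 ≤ N ∧ N < (Nat.sqrt (Nat.sqrt N) + 1) ^ 4 := by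
  set r := Nat.sqrt N with hr
  set t := Nat.sqrt r with ht
  have h1 : t * t ≤ r := Nat.sqrt_le r
  have h2 : r * r ≤ N := Nat.sqrt_le N
  have h3 : r < (t + 1) * (t + 1) := Nat.lt_succ_sqrt r
  have h4 : N < (r + 1) * (r + 1) := Nat.lt_succ_sqrt N
  constructor
  · calc t ^ 4 = (t * t) * (t * t) := by ring
      _ ≤ r * r := Nat.mul_le_mul h1 h1
      _ ≤ N := h2
  · have h5 : r + 1 ≤ (t + 1) * (t + 1) := h3
    calc N < (r + 1) * (r + 1) := h4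
      _ ≤ ((t + 1) * (t + 1)) * ((t + 1) * (t + 1)) := Nat.mul_le_mul h5 h5
      _ = (t + 1) ^ 4 := by ring

theorem num_sq (m N t : ℕ) (hm : 1 ≤ m) (h1 : t ^ 4 ≤ N) (h2 : N < (t + 1) ^ 4) (ht : 12 * m ≤ t) :
    2 * N ≤ (N / (m * t)) ^ 2 := by
  have ht1 : 1 ≤ t := by omega
  set q := N / (m * t) with hq
  have hpos : 0 < m * t := Nat.mul_pos hm ht1
  have h3 : N < (q + 1) * (m * t) := by
    rw [hq]
    exact (Nat.div_lt_iff_lt_mul hpos).1 (Nat.lt_succ_self _)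
  have h4 : t ^ 3 < (q + 1) * m := by
    have : t ^ 3 * t < ((q + 1) * m) * t := by
      calc t ^ 3 * t = t ^ 4 := by ring
        _ ≤ N := h1
        _ < (q + 1) * (m * t) := h3
        _ = ((q + 1) * m) * t := by ring
    exact lt_of_mul_lt_mul_right this (Nat.zero_le t)
  have h5 : 2 * m ≤ t ^ 3 := by
    have : t * 1 ≤ t * (t * t) := Nat.mul_le_mul_left t (Nat.mul_pos ht1 ht1)
    calc 2 * m ≤ t := by omega
      _ = t * 1 := by ring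
      _ ≤ t * (t * t) := this
      _ = t ^ 3 := by ring
  have h6 : t ^ 3 ≤ 2 * (q * m) := by nlinarith
  have h7 : N ≤ 16 * t ^ 4 := by
    have : t + 1 ≤ 2 * t := by omega
    calc N ≤ (t + 1) ^ 4 := h2.le
      _ ≤ (2 * t) ^ 4 := Nat.pow_le_pow_left this 4
      _ = 16 * t ^ 4 := by ring
  have h8 : 144 * m ^ 2 ≤ t ^ 2 := by
    calc 144 * m ^ 2 = (12 * m) ^ 2 := by ring
      _ ≤ t ^ 2 := Nat.pow_le_pow_left ht 2
  have h9 : t ^ 6 ≤ 4 * (q ^ 2 * m ^ 2) := by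
    calc t ^ 6 = (t ^ 3) ^ 2 := by ring
      _ ≤ (2 * (q * m)) ^ 2 := Nat.pow_le_pow_left h6 2
      _ = 4 * (q ^ 2 * m ^ 2) := by ring
  have h10 : (2 * N) * (4 * m ^ 2) ≤ q ^ 2 * (4 * m ^ 2) := by
    calc (2 * N) * (4 * m ^ 2) ≤ (2 * (16 * t ^ 4)) * (4 * m ^ 2) := by gcongr
      _ = 128 * m ^ 2 * t ^ 4 := by ring
      _ ≤ t ^ 2 * t ^ 4 := by
          apply Nat.mul_le_mul_right
          calc 128 * m ^ 2 ≤ 144 * m ^ 2 := by omega
            _ ≤ t ^ 2 := h8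
      _ = t ^ 6 := by ring
      _ ≤ 4 * (q ^ 2 * m ^ 2) := h9
      _ = q ^ 2 * (4 * m ^ 2) := by ring
  have hm2 : 0 < 4 * m ^ 2 := by positivity
  exact le_of_mul_le_mul_right h10 hm2

theorem num (m : ℕ) (hm : 1 ≤ m) : ∃ N0 : ℕ, ∀ N : ℕ, N0 ≤ N →
    1 ≤ Nat.sqrt (Nat.sqrt N) ∧ 2 * N ≤ (N / (m * Nat.sqrt (Nat.sqrt N))) ^ 2 ∧
    ∀ x : ℝ, (N : ℝ) ^ (-(1 : ℝ) / 8) ≤ x →
      ((N / (m * Nat.sqrt (Nat.sqrt N))) * m : ℕ) * ((m + 1) * (N : ℝ) ^ m *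
        (2 * Real.exp (-((Nat.sqrt (Nat.sqrt N) : ℕ) * x / 8)))) ≤ 1 / (2 * N) := by
  obtain ⟨U, hU⟩ := num_exp (4 * (m + 1) * 16 ^ (m + 2) * 16 ^ (8 * (m + 2))) (8 * (m + 2))
  set T : ℕ := max (12 * m) (⌈(16 * max U 0) ^ 2⌉₊) with hT
  refine ⟨(T + 1) ^ 4, fun N hN => ?_⟩
  obtain ⟨h1, h2⟩ := num_sqrt N
  set t := Nat.sqrt (Nat.sqrt N) with ht
  have hTt : T ≤ t := by
    by_contra hlt
    push Not at hlt
    have : (t + 1) ^ 4 ≤ (T + 1) ^ 4 := Nat.pow_le_pow_left (by omega) 4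
    omega
  have ht12 : 12 * m ≤ t := le_trans (le_max_left _ _) hTt
  have ht1 : 1 ≤ t := by omega
  refine ⟨ht1, num_sq m N t hm h1 h2 ht12, fun x hx => ?_⟩
  have hNpos : 1 ≤ N := le_trans (Nat.one_le_pow 4 t ht1) h1
  have hNr : (0 : ℝ) < N := by exact_mod_cast hNpos
  have htr : (0 : ℝ) < t := by exact_mod_cast ht1
  have hN16 : (N : ℝ) ≤ 16 * (t : ℝ) ^ 4 := by
    have : N ≤ 16 * t ^ 4 := by
      have : t + 1 ≤ 2 * t := by omega
      calc N ≤ (t + 1) ^ 4 := h2.le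
        _ ≤ (2 * t) ^ 4 := Nat.pow_le_pow_left this 4
        _ = 16 * t ^ 4 := by ring
    exact_mod_cast this
  set s : ℝ := Real.sqrt t with hs
  have hs2 : s ^ 2 = t := Real.sq_sqrt htr.le
  have hspos : 0 < s := Real.sqrt_pos.2 htr
  -- lower bound for x
  have hx1 : 1 / (2 * s) ≤ x := by
    refine le_trans ?_ hx
    have e1 : (N : ℝ) ^ ((1 : ℝ) / 8) ≤ 2 * s := by
      have e2 : (N : ℝ) ≤ (2 * s) ^ (8 : ℕ) := by
        calc (N : ℝ) ≤ 16 * (t : ℝ) ^ 4 := hN16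
          _ = 16 * (s ^ 2) ^ 4 := by rw [hs2]
          _ ≤ (2 * s) ^ (8 : ℕ) := by
              have : (2 * s) ^ (8 : ℕ) = 256 * (s ^ 2) ^ 4 := by ring
              rw [this]
              have : 0 ≤ (s ^ 2) ^ 4 := by positivity
              linarith
      calc (N : ℝ) ^ ((1 : ℝ) / 8) ≤ ((2 * s) ^ (8 : ℕ)) ^ ((1 : ℝ) / 8) :=
            Real.rpow_le_rpow hNr.le e2 (by norm_num)
        _ = 2 * s := by
            rw [← Real.rpow_natCast, ← Real.rpow_mul (by positivity)]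
            norm_num
    have e3 : (N : ℝ) ^ (-(1 : ℝ) / 8) = 1 / (N : ℝ) ^ ((1 : ℝ) / 8) := by
      rw [neg_div, Real.rpow_neg hNr.le]
      exact (one_div _).symm
    rw [e3]
    apply one_div_le_one_div_of_le
    · positivity
    · exact e1
  have hx2 : s / 16 ≤ (t : ℝ) * x / 8 := by
    have : (t : ℝ) * (1 / (2 * s)) ≤ (t : ℝ) * x := mul_le_mul_of_nonneg_left hx1 htr.le
    have e : (t : ℝ) * (1 / (2 * s)) = s / 2 := by
      rw [← hs2]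
      field_simp
    rw [e] at this
    linarith
  -- u
  have hu : U ≤ s / 16 := by
    have a1 : (16 * max U 0) ^ 2 ≤ (t : ℝ) := by
      calc (16 * max U 0) ^ 2 ≤ (⌈(16 * max U 0) ^ 2⌉₊ : ℝ) := Nat.le_ceil _
        _ ≤ (T : ℝ) := by exact_mod_cast le_max_right _ _
        _ ≤ t := by exact_mod_cast hTt
    have a2 : 16 * max U 0 ≤ s := by
      rw [hs]
      exact Real.le_sqrt_of_sq_le a1
    have a3 := le_max_left U 0
    linarith
  have hmain := hU (s / 16) hu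
  have hexp : Real.exp (-((t : ℝ) * x / 8)) ≤ Real.exp (-(s / 16)) := Real.exp_le_exp.2 (by linarith)
  have hqm : ((N / (m * t) * m : ℕ) : ℝ) ≤ N := by
    have : N / (m * t) * m ≤ N := by
      calc N / (m * t) * m ≤ N / (m * t) * (m * t) := by
            apply Nat.mul_le_mul_left
            calc m = m * 1 := by ring
              _ ≤ m * t := Nat.mul_le_mul_left m ht1
        _ ≤ N := Nat.div_mul_le_self N (m * t)
    exact_mod_cast this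
  have hE : 0 < Real.exp (-(s / 16)) := Real.exp_pos _
  have hfin : 4 * ((m : ℝ) + 1) * (N : ℝ) ^ (m + 2) * Real.exp (-(s / 16)) ≤ 1 := by
    have b1 : (N : ℝ) ^ (m + 2) ≤ (16 * (t : ℝ) ^ 4) ^ (m + 2) := pow_le_pow_left₀ hNr.le hN16 _
    have b2 : (16 * (t : ℝ) ^ 4) ^ (m + 2) = 16 ^ (m + 2) * (16 ^ (8 * (m + 2)) * (s / 16) ^ (8 * (m + 2))) := by
      rw [← mul_pow (16 : ℝ) (s / 16) (8 * (m + 2))]
      have : (16 : ℝ) * (s / 16) = s := by ring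
      rw [this, mul_pow, ← hs2]
      congr 1
      rw [← pow_mul, ← pow_mul]
      congr 1
      ring
    calc 4 * ((m : ℝ) + 1) * (N : ℝ) ^ (m + 2) * Real.exp (-(s / 16))
        ≤ 4 * ((m : ℝ) + 1) * (16 * (t : ℝ) ^ 4) ^ (m + 2) * Real.exp (-(s / 16)) := by
          gcongr
      _ = (4 * (m + 1) * 16 ^ (m + 2) * 16 ^ (8 * (m + 2))) * ((s / 16) ^ (8 * (m + 2)) * Real.exp (-(s / 16))) := by
          rw [b2]; ring
      _ ≤ 1 := hmain
  have hNN : (0 : ℝ) < 2 * N := by linarith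
  rw [le_div_iff₀ hNN]
  calc ((N / (m * t) * m : ℕ) : ℝ) * ((m + 1) * (N : ℝ) ^ m * (2 * Real.exp (-((t : ℝ) * x / 8)))) * (2 * N)
      ≤ (N : ℝ) * ((m + 1) * (N : ℝ) ^ m * (2 * Real.exp (-(s / 16)))) * (2 * N) := by
        gcongr
    _ = 4 * ((m : ℝ) + 1) * (N : ℝ) ^ (m + 2) * Real.exp (-(s / 16)) := by ring
    _ ≤ 1 := hfin

end Pool.Agent.H82.SV
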