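/-
ROW SV Prb (about 130 lines). The probability that G has the property P is at most the probability that some group has no m-clique, plus the probability of P' for the super graph.
PROOF. w, ed from rsub_gnp p (H9/KR/Gnp.lean), real_eq_pr p (Gnp.lean) turns both real's into pr w. E₀ := pairs V, gr v := v / s, E1 := (pairs V).filter (both ends in the same group; e.g. d ∈ E1 iff ∀ u v, d = s(u,v) → gr u = gr v).
 For T ⊆ E1 let Gd T := for all a : Fin N' there is c : Fin m → V with gr (c e) = a and s(c e, c f) ∈ T for e ≠ f. Choose κ_T (Classical.choose) if Gd T. Since the pairs s(c e, c f) lie in one group, G has an m-clique in the group a iff Gd (ed G ∩ E1) gives it.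
 pr w (P) <= pr w (not Gd (ed G ∩ E1)) + sum over T ∈ E1.powerset with Gd T of pr w (ed G ∩ E1 = T and P' (sup G κ_T)) (hPP). For each T: W_T := pr w (ed G ∩ E1 = T). If W_T = 0 the term is 0. Otherwise rsub_cond (Cnd.lean) and blk_pr (Blk.lean) for R o := ed o \ E1, E₀ \ E1, κ_T (κ a injective: adjacent vertices are different; sup (gR (ed G \ E1)) κ_T = sup G κ_T since only pairs of different groups matter): the term is W_T * (binomialRandom p').real P'.
 sum_T W_T <= 1.
-/
import Pool.Agent.H82.SV.Cnd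
import Pool.Agent.H82.SV.Blk

set_option autoImplicit false
set_option linter.unusedSectionVars false

open Finset

namespace Pool.Agent.H82.SV

open Pool.Agent.H9.KR Pool.Agent.H82.RG

/-- The pairs of vertices in one group of size `s`. -/
noncomputable def inG (N s : ℕ) : Finset (Sym2 (Fin N)) := by
  classical
  exact (pairs (Fin N)).filter fun d => ∀ u v : Fin N, d = s(u, v) → (u : ℕ) / s = (v : ℕ) / s

theorem mem_inG {N s : ℕ} {u v : Fin N} :
    s(u, v) ∈ inG N s ↔ u ≠ v ∧ (u : ℕ) / s = (v : ℕ) / s := by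
  classical
  unfold inG
  rw [mem_filter, mem_pairs]
  constructor
  · exact fun h => ⟨h.1, h.2 u v rfl⟩
  · rintro ⟨h1, h2⟩
    refine ⟨h1, fun a b hab => ?_⟩
    rw [Sym2.eq_iff] at hab
    rcases hab with ⟨rfl, rfl⟩ | ⟨rfl, rfl⟩
    · exact h2
    · exact h2.symm

theorem inG_sub (N s : ℕ) : inG N s ⊆ pairs (Fin N) := by
  classical
  unfold inG
  exact filter_subset _ _

/-- Every group contains an `m`-clique of pairs in `T`. -/
def Gd (N' m s : ℕ) {N : ℕ} (T : Finset (Sym2 (Fin N))) : Prop :=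
  ∀ a : Fin N', ∃ c : Fin m → Fin N, (∀ e, (c e : ℕ) / s = (a : ℕ)) ∧ ∀ e f, e ≠ f → s(c e, c f) ∈ T

theorem sup_pr_term {N N' s m : ℕ} (p p' : unitInterval)
    (hp : (p' : ℝ) = (p : ℝ) ^ (m ^ 2)) (P : SimpleGraph (Fin N) → Prop)
    (P' : SimpleGraph (Fin N') → Prop)
    (hPP : ∀ (G : SimpleGraph (Fin N)) (κ : Fin N' → Fin m → Fin N),
      (∀ a e f, e ≠ f → G.Adj (κ a e) (κ a f)) → P G → P' (sup G κ))
    (T : Finset (Sym2 (Fin N))) (hT : T ⊆ inG N s) (hG : Gd N' m s T) :
    pr (fun G : SimpleGraph (Fin N) => (SimpleGraph.binomialRandom (Fin N) p).real {G})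
      (fun G => ed G ∩ inG N s = T ∧ P G) ≤
    pr (fun G : SimpleGraph (Fin N) => (SimpleGraph.binomialRandom (Fin N) p).real {G})
      (fun G => ed G ∩ inG N s = T) * (SimpleGraph.binomialRandom (Fin N') p').real {G | P' G} := by
  classical
  have h := rsub_gnp (V := Fin N) p
  set w : SimpleGraph (Fin N) → ℝ := fun G => (SimpleGraph.binomialRandom (Fin N) p).real {G} with hw
  choose κ hκ1 hκ2 using hG
  have hB : 0 ≤ (SimpleGraph.binomialRandom (Fin N') p').real {G | P' G} :=
    MeasureTheory.measureReal_nonneg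
  rcases (pr_nonneg h.nonneg (fun G => ed G ∩ inG N s = T)).eq_or_lt with hW | hW
  · rw [← hW, zero_mul, hW]
    exact pr_mono h.nonneg fun G hGG => hGG.1
  · have hsup : ∀ G : SimpleGraph (Fin N), sup (gR (ed G \ inG N s)) κ = sup G κ := by
      intro G
      ext a b
      unfold sup gR
      simp only [SimpleGraph.fromEdgeSet_adj, Finset.mem_coe, mem_sdiff, mem_ed]
      constructor
      · rintro ⟨h1, h2⟩
        exact ⟨h1, fun e f => (h2 e f).1.1⟩
      · rintro ⟨h1, h2⟩
        refine ⟨h1, fun e f => ⟨⟨h2 e f, fun h3 => ?_⟩, (h2 e f).ne⟩⟩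
        rw [mem_inG, hκ1, hκ1] at h3
        exact h1 (Fin.ext h3.2)
    have hc := rsub_cond h gnp_ed_sub (inG N s) (inG_sub N s) T hT hW
    have hb := blk_pr p p' hp hc (fun v => (v : ℕ) / s) κ (fun a e f hef => by
      by_contra hne
      exact (mem_inG.1 (hT (hκ2 a e f hne))).1 hef) hκ1 (fun u v huv => by
      rw [mem_sdiff, mem_pairs, mem_inG]
      refine ⟨fun h1 => huv (by rw [h1]), fun h1 => huv h1.2⟩) P'
    rw [← hb]
    calc pr w (fun G => ed G ∩ inG N s = T ∧ P G)
        ≤ pr w (fun G => ed G ∩ inG N s = T ∧ P' (sup G κ)) := by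
          refine pr_mono h.nonneg fun G hGG => ⟨hGG.1, hPP G κ (fun a e f hef => ?_) hGG.2⟩
          have h1 := hκ2 a e f hef
          rw [← hGG.1, mem_inter, mem_ed] at h1
          exact h1.1
      _ = _ := by
          generalize pr w (fun G => ed G ∩ inG N s = T) = W at hW
          unfold pr
          rw [mul_sum]
          refine sum_congr rfl fun G _ => ?_
          beta_reduce
          rw [hsup G]
          by_cases h1 : ed G ∩ inG N s = T
          · by_cases h2 : P' (sup G κ)
            · simp only [h1, h2, and_self, if_true]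
              field_simp
            · simp [h2]
          · simp [h1]

theorem sup_pr {N N' s m : ℕ} (hm : 1 ≤ m) (p p' : unitInterval)
    (hp : (p' : ℝ) = (p : ℝ) ^ (m ^ 2)) (P : SimpleGraph (Fin N) → Prop)
    (P' : SimpleGraph (Fin N') → Prop)
    (hPP : ∀ (G : SimpleGraph (Fin N)) (κ : Fin N' → Fin m → Fin N),
      (∀ a e f, e ≠ f → G.Adj (κ a e) (κ a f)) → P G → P' (sup G κ)) :
    (SimpleGraph.binomialRandom (Fin N) p).real {G | P G} ≤
      (SimpleGraph.binomialRandom (Fin N) p).real {G | ∃ a : Fin N', ¬ ∃ c : Fin m → Fin N,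
        (∀ e, (c e : ℕ) / s = (a : ℕ)) ∧ ∀ e f, e ≠ f → G.Adj (c e) (c f)} +
      (SimpleGraph.binomialRandom (Fin N') p').real {G | P' G} := by
  classical
  have h := rsub_gnp (V := Fin N) p
  rw [real_eq_pr p P, real_eq_pr p]
  set w : SimpleGraph (Fin N) → ℝ := fun G => (SimpleGraph.binomialRandom (Fin N) p).real {G} with hw
  set B := (SimpleGraph.binomialRandom (Fin N') p').real {G | P' G} with hBdef
  have hB : 0 ≤ B := MeasureTheory.measureReal_nonneg
  have h1 : pr w P ≤ pr w (fun G => (∃ a : Fin N', ¬ ∃ c : Fin m → Fin N,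
        (∀ e, (c e : ℕ) / s = (a : ℕ)) ∧ ∀ e f, e ≠ f → G.Adj (c e) (c f)) ∨
        ∃ T ∈ (inG N s).powerset.filter (fun T => Gd N' m s T), ed G ∩ inG N s = T ∧ P G) := by
    refine pr_mono h.nonneg fun G hG => ?_
    by_cases hg : Gd N' m s (ed G ∩ inG N s)
    · right
      exact ⟨ed G ∩ inG N s, mem_filter.2 ⟨mem_powerset.2 inter_subset_right, hg⟩, rfl, hG⟩
    · left
      unfold Gd at hg
      push Not at hg
      obtain ⟨a, ha⟩ := hg
      refine ⟨a, ?_⟩
      rintro ⟨c, hc1, hc2⟩
      obtain ⟨e, f, hef, hn⟩ := ha c hc1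
      refine hn ?_
      rw [mem_inter, mem_ed, mem_inG, hc1, hc1]
      exact ⟨hc2 e f hef, (hc2 e f hef).ne, rfl⟩
  refine h1.trans ((pr_or_le h.nonneg _ _).trans (add_le_add le_rfl ?_))
  refine (pr_exists_le h.nonneg _ _).trans ?_
  have h2 : ∀ T ∈ (inG N s).powerset.filter (fun T => Gd N' m s T),
      pr w (fun G => ed G ∩ inG N s = T ∧ P G) ≤ pr w (fun G => ed G ∩ inG N s = T) * B := by
    intro T hT
    rw [mem_filter, mem_powerset] at hT
    exact sup_pr_term p p' hp P P' hPP T hT.1 hT.2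
  refine (sum_le_sum h2).trans ?_
  rw [← sum_mul]
  have h3 : ∑ T ∈ (inG N s).powerset.filter (fun T => Gd N' m s T),
      pr w (fun G => ed G ∩ inG N s = T) ≤ 1 := by
    rw [← h.total]
    unfold pr
    rw [sum_comm]
    refine sum_le_sum fun G _ => ?_
    by_cases hG : ed G ∩ inG N s ∈ (inG N s).powerset.filter (fun T => Gd N' m s T)
    · refine (sum_eq_single_of_mem _ hG ?_).le.trans ?_
      · intro T _ hne
        exact if_neg (fun h6 : ed G ∩ inG N s = T => hne h6.symm)
      · exact (if_pos rfl).le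
    · refine (sum_eq_zero ?_).le.trans (h.nonneg G)
      intro T hT
      exact if_neg (fun h6 : ed G ∩ inG N s = T => hG (by rw [h6]; exact hT))
  calc _ ≤ 1 * B := mul_le_mul_of_nonneg_right h3 hB
    _ = B := one_mul B

end Pool.Agent.H82.SV
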