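/-
ROW SV Fin (about 150 lines). The final step with super-vertices, from a base theorem.
PROOF. A := 16 (C2+1) c K, m := 4 K A, c' := 4 c m, R' := 128 c', N0 from num m (Num.lean). C := a multiple of m R' which is at least 2 (C1+1) c'^e m, 4 c'^e, m R', 8 c m, 4 m and such that 2^(C / K) >= N0, e.g. C := m R' * (2 (C1+1) c'^e + 4 c'^e + 8 + K (N0 + 1)) (N^K >= 2^k >= 2^C and 2^(K N0) > N0^K give N >= N0: if N < N0 then N^K < N0^K <= 2^(K N0) <= 2^k).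
 Given z, k, N, p. t := sqrt (sqrt N), N' := N / (m t), k' := k / m + 1, z' := 2 z. Then k <= m k', m k' <= 2 k (k >= m), 2 <= k', N <= N'^2.
 P G := {∃ S q, S <= N^z, C q <= k, group refutation with C groups}, P' G' := {∃ S q, S <= N'^z', 128 c' q <= k', group refutation with R' groups of (G', k')}. hPP of sup_pr (Prb.lean, s := m t): group_dvd (m R' ∣ C), group_sup (Red.lean); S <= N^z <= N'^(2z); 128 c' q <= k' since C q <= k and C >= m R'.
 sup_pr with p' := p^(m^2) (as an element of unitInterval): first term: clq_pr (Clq.lean) and num with x = p^m: p >= N^(-c/k) and c m / k <= 1/8 (k >= 8 c m), so p^m >= N^(-1/8) (rpow_natCast, rpow_mul, N >= 1); 0 < p.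
 second term: hB for (c', z', k', N', A, p'): C1 c'^e z' <= k' (C z <= k), C2 c' <= A^2 (C2 16 c K A <= A^2), 2^(A k') <= N': 2 K A k' <= k (as m k' <= 2 k, m = 4 K A), so (2^(A k'))^(2K) <= 2^k <= N^K <= N'^(2K). k'^(C3 c'^e z') <= N': its square is k'^(4 C3 c'^e z) <= k^(C3 C z) <= N <= N'^2 (k' <= k). p^(m^2) >= N^(-c m^2 / k) >= N'^(-2 c m^2 / k) >= N'^(-c'/k') (2 c m^2 k' <= c' k since m k' <= 2 k).
 Total: 1/(2N) + 1/N'^2 <= 1/(2N) + 1/(2N) (2 N <= N'^2).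
-/
import Pool.Agent.H82.SV.Prb
import Pool.Agent.H82.SV.Clq
import Pool.Agent.H82.SV.Num
import Pool.Agent.H82.SV.Dvd

set_option autoImplicit false
set_option linter.unusedSectionVars false

open Finset

namespace Pool.Agent.H82.SV

open Pool.Agent.H49.RG

/-- The base theorem (for `k` at most a small multiple of `log N`). -/
def Base (C1 C2 C3 e : ℕ) : Prop :=
  ∀ (c z k N A : ℕ) (p : unitInterval), 1 ≤ c → 1 ≤ z → C1 * c ^ e * z ≤ k → C2 * c ≤ A ^ 2 →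
    2 ^ (A * k) ≤ N → k ^ (C3 * c ^ e * z) ≤ N → (N : ℝ) ^ (-(c : ℝ) / k) ≤ p →
    (SimpleGraph.binomialRandom (Fin N) p).real {G | ∃ S q : ℕ, S ≤ N ^ z ∧ 128 * c * q ≤ k ∧
      ∃ f, GroupRefutation (k := k) G (128 * c) q S f} ≤ 1 / (N : ℝ) ^ 2

theorem super (C1 C2 C3 e : ℕ) (hB : Base C1 C2 C3 e) (c K : ℕ) (hc : 1 ≤ c) (hK : 1 ≤ K) :
    ∃ C : ℕ, 2 ≤ C ∧ ∀ (z k N : ℕ) (p : unitInterval), 1 ≤ z → C * z ≤ k → 2 ^ k ≤ N ^ K →
      k ^ (C3 * C * z) ≤ N → (N : ℝ) ^ (-(c : ℝ) / k) ≤ p →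
      (SimpleGraph.binomialRandom (Fin N) p).real {G | ∃ S q : ℕ, S ≤ N ^ z ∧ C * q ≤ k ∧
        ∃ f, GroupRefutation (k := k) G C q S f} ≤ 1 / N := by
  classical
  obtain ⟨A, hA⟩ : ∃ A, A = 16 * (C2 + 1) * c * K := ⟨_, rfl⟩
  obtain ⟨m, hm⟩ : ∃ m, m = 4 * K * A := ⟨_, rfl⟩
  obtain ⟨c', hc'⟩ : ∃ c', c' = 4 * c * m := ⟨_, rfl⟩
  have hA1 : 1 ≤ A := by
    rw [hA]
    exact Nat.succ_le_of_lt (by positivity)
  have hm4 : 4 ≤ m := by
    rw [hm]
    calc 4 = 4 * 1 * 1 := by norm_num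
      _ ≤ 4 * K * A := Nat.mul_le_mul (Nat.mul_le_mul le_rfl hK) hA1
  have hm1 : 1 ≤ m := by omega
  have hc1 : 1 ≤ c' := by
    rw [hc']
    exact Nat.succ_le_of_lt (by positivity)
  have hce : 1 ≤ c' ^ e := Nat.one_le_pow _ _ hc1
  have hC2A : C2 * c' ≤ A ^ 2 := by
    have h1 : c' = 16 * c * K * A := by rw [hc', hm]; ring
    rw [h1]
    calc C2 * (16 * c * K * A) ≤ (C2 + 1) * (16 * c * K * A) := Nat.mul_le_mul (by omega) le_rfl
      _ = (16 * (C2 + 1) * c * K) * A := by ring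
      _ = A ^ 2 := by rw [← hA]; ring
  obtain ⟨N0, hN0⟩ := num m hm1
  obtain ⟨D0, hD0⟩ : ∃ D0, D0 = 2 * (C1 + 1) * c' ^ e + 4 * c' ^ e + 8 + K * (N0 + 1) :=
    ⟨_, rfl⟩
  obtain ⟨C, hC⟩ : ∃ C, C = m * (128 * c') * D0 := ⟨_, rfl⟩
  have hmx : ∀ x, x ≤ D0 → m * x ≤ C := by
    intro x hx
    rw [hC]
    calc m * x = m * 1 * x := by ring
      _ ≤ m * (128 * c') * D0 := Nat.mul_le_mul (Nat.mul_le_mul le_rfl (by omega)) hx
  have hx : ∀ x, x ≤ D0 → x ≤ C := fun x h =>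
    le_trans (Nat.le_mul_of_pos_left x (by omega)) (hmx x h)
  have hC1 : 2 * (C1 + 1) * c' ^ e * m ≤ C := by
    rw [mul_comm]
    exact hmx _ (by rw [hD0]; omega)
  have hC4 : 4 * c' ^ e ≤ C := hx _ (by rw [hD0]; omega)
  have hCK : K * (N0 + 1) ≤ C := hx _ (by rw [hD0]; omega)
  have hCR : m * (128 * c') ≤ C := by
    rw [hC]
    exact Nat.le_mul_of_pos_right _ (by rw [hD0]; omega)
  have hC8 : 8 * c * m ≤ C := by
    have h1 : c ≤ 128 * c' := by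
      rw [hc']
      calc c = c * 1 := by ring
        _ ≤ c * (128 * 4 * m) := Nat.mul_le_mul le_rfl (by omega)
        _ = 128 * (4 * c * m) := by ring
    rw [hC]
    calc 8 * c * m = m * c * 8 := by ring
      _ ≤ m * (128 * c') * D0 :=
        Nat.mul_le_mul (Nat.mul_le_mul le_rfl h1) (by rw [hD0]; omega)
  have hCm : m ≤ C := le_trans (Nat.le_mul_of_pos_right _ (by omega)) hCR
  refine ⟨C, by omega, ?_⟩
  intro z k N p hz hCk h2k hkN hp
  have hCk1 : C ≤ k := le_trans (Nat.le_mul_of_pos_right _ (by omega)) hCk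
  have hk1 : 1 ≤ k := by omega
  -- `N` is large
  have hNN0 : N0 ≤ N := by
    by_contra h
    have h1 : N ≤ N0 := by omega
    have h2 : N ^ K ≤ N0 ^ K := Nat.pow_le_pow_left h1 K
    have h3 : N0 ^ K ≤ (2 ^ N0) ^ K := Nat.pow_le_pow_left (Nat.lt_two_pow_self).le K
    have h4 : (2 ^ N0) ^ K = 2 ^ (K * N0) := by rw [← pow_mul, mul_comm]
    have h5 : K * N0 < k := by
      have : K * N0 < K * (N0 + 1) := Nat.mul_lt_mul_of_pos_left (by omega) (by omega)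
      omega
    have h6 : 2 ^ (K * N0) < 2 ^ k := Nat.pow_lt_pow_right (by norm_num) h5
    omega
  obtain ⟨t, ht⟩ : ∃ t, t = Nat.sqrt (Nat.sqrt N) := ⟨_, rfl⟩
  obtain ⟨N', hN'⟩ : ∃ N', N' = N / (m * t) := ⟨_, rfl⟩
  obtain ⟨ht1, h2N, hexp⟩ := hN0 N hNN0
  rw [← ht] at ht1 h2N hexp
  rw [← hN'] at h2N hexp
  have hN1 : 1 ≤ N := by
    rcases Nat.eq_zero_or_pos N with h | h
    · rw [h, zero_pow (by omega)] at h2k
      have : 0 < 2 ^ k := by positivity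
      omega
    · exact h
  have hNN : N ≤ N' ^ 2 := by omega
  have hN'1 : 1 ≤ N' := by
    rcases Nat.eq_zero_or_pos N' with h | h
    · rw [h] at hNN
      simp at hNN
      omega
    · exact h
  have hNm : N' * (m * t) ≤ N := by rw [hN']; exact Nat.div_mul_le_self _ _
  obtain ⟨k', hk'⟩ : ∃ k', k' = k / m + 1 := ⟨_, rfl⟩
  have hkm : k ≤ m * k' := by
    rw [hk']
    have := Nat.lt_mul_div_succ k (show 0 < m by omega)
    exact this.le
  have hmk : m * k' ≤ 2 * k := by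
    rw [hk', mul_add, mul_one]
    have := Nat.mul_div_le k m
    omega
  have hk2 : 2 ≤ k' := by
    rw [hk']
    have : 1 ≤ k / m := (Nat.one_le_div_iff (by omega)).2 (by omega)
    omega
  have hk'k : k' ≤ k := by
    rw [hk']
    have h1 : k / m ≤ k / 4 := Nat.div_le_div_left hm4 (by norm_num)
    omega
  -- the real numbers
  have hNr : (1 : ℝ) ≤ N := by exact_mod_cast hN1
  have hN'r : (1 : ℝ) ≤ N' := by exact_mod_cast hN'1
  have hkr : (0 : ℝ) < k := by exact_mod_cast hk1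
  have hp0 : (0 : ℝ) < p := lt_of_lt_of_le (Real.rpow_pos_of_pos (by linarith) _) hp
  have hpow : ∀ n : ℕ, (N : ℝ) ^ (-((c : ℝ) * n) / k) ≤ (p : ℝ) ^ n := by
    intro n
    have h1 : (N : ℝ) ^ (-((c : ℝ) * n) / k) = ((N : ℝ) ^ (-(c : ℝ) / k)) ^ n := by
      rw [← Real.rpow_natCast, ← Real.rpow_mul (by linarith)]
      congr 1
      ring
    rw [h1]
    exact pow_le_pow_left₀ (Real.rpow_nonneg (by linarith) _) hp n
  have hp8 : (N : ℝ) ^ (-(1 : ℝ) / 8) ≤ (p : ℝ) ^ m := by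
    refine le_trans (Real.rpow_le_rpow_of_exponent_le hNr ?_) (hpow m)
    have h1 : (8 * c * m : ℝ) ≤ k := by exact_mod_cast le_trans hC8 hCk1
    rw [div_le_div_iff₀ (by norm_num) hkr]
    nlinarith
  have hA2 : 2 ^ (A * k') ≤ N' := by
    have h1 : 2 * K * (A * k') ≤ k := by
      have h2 : 2 * (2 * K * (A * k')) ≤ 2 * k := by
        calc 2 * (2 * K * (A * k')) = m * k' := by rw [hm]; ring
          _ ≤ 2 * k := hmk
      omega
    have h2 : (2 ^ (A * k')) ^ (2 * K) ≤ N' ^ (2 * K) := by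
      calc (2 ^ (A * k')) ^ (2 * K) = 2 ^ (2 * K * (A * k')) := by
            rw [← pow_mul]
            congr 1
            ring
        _ ≤ 2 ^ k := Nat.pow_le_pow_right (by norm_num) h1
        _ ≤ N ^ K := h2k
        _ ≤ (N' ^ 2) ^ K := Nat.pow_le_pow_left hNN K
        _ = N' ^ (2 * K) := by rw [← pow_mul]
    exact (Nat.pow_le_pow_iff_left (by omega)).1 h2
  have hk3 : k' ^ (C3 * c' ^ e * (2 * z)) ≤ N' := by
    have h2 : (k' ^ (C3 * c' ^ e * (2 * z))) ^ 2 ≤ N' ^ 2 := by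
      calc (k' ^ (C3 * c' ^ e * (2 * z))) ^ 2 = k' ^ (C3 * (4 * c' ^ e) * z) := by
            rw [← pow_mul]
            congr 1
            ring
        _ ≤ k ^ (C3 * (4 * c' ^ e) * z) := Nat.pow_le_pow_left hk'k _
        _ ≤ k ^ (C3 * C * z) :=
          Nat.pow_le_pow_right hk1 (Nat.mul_le_mul (Nat.mul_le_mul le_rfl hC4) le_rfl)
        _ ≤ N := hkN
        _ ≤ N' ^ 2 := hNN
    exact (Nat.pow_le_pow_iff_left (by norm_num)).1 h2
  have hz' : C1 * c' ^ e * (2 * z) ≤ k' := by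
    have h1 : m * (C1 * c' ^ e * (2 * z)) ≤ m * k' := by
      calc m * (C1 * c' ^ e * (2 * z)) = 2 * C1 * c' ^ e * m * z := by ring
        _ ≤ 2 * (C1 + 1) * c' ^ e * m * z := by
          refine Nat.mul_le_mul (Nat.mul_le_mul (Nat.mul_le_mul ?_ le_rfl) le_rfl) le_rfl
          omega
        _ ≤ C * z := Nat.mul_le_mul hC1 le_rfl
        _ ≤ k := hCk
        _ ≤ m * k' := hkm
    exact Nat.le_of_mul_le_mul_left h1 (by omega)
  obtain ⟨p', hp'⟩ : ∃ p' : unitInterval, (p' : ℝ) = (p : ℝ) ^ (m ^ 2) :=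
    ⟨⟨(p : ℝ) ^ (m ^ 2), pow_nonneg p.2.1 _, pow_le_one₀ p.2.1 p.2.2⟩, rfl⟩
  have hpp : (N' : ℝ) ^ (-(c' : ℝ) / k') ≤ p' := by
    rw [hp']
    have hk'r : (0 : ℝ) < k' := by
      have : (2 : ℝ) ≤ k' := by exact_mod_cast hk2
      linarith
    refine le_trans ?_ (hpow (m ^ 2))
    have h1 : (N : ℝ) ≤ (N' : ℝ) ^ (2 : ℝ) := by
      rw [Real.rpow_two]
      exact_mod_cast hNN
    have h2 : -((c : ℝ) * ((m ^ 2 : ℕ) : ℝ)) / k ≤ 0 := by
      rw [neg_div]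
      have : (0 : ℝ) ≤ (c : ℝ) * ((m ^ 2 : ℕ) : ℝ) / k := by positivity
      linarith
    have h3 : ((N' : ℝ) ^ (2 : ℝ)) ^ (-((c : ℝ) * ((m ^ 2 : ℕ) : ℝ)) / k) ≤
        (N : ℝ) ^ (-((c : ℝ) * ((m ^ 2 : ℕ) : ℝ)) / k) :=
      Real.rpow_le_rpow_of_nonpos (by linarith) h1 h2
    refine le_trans ?_ h3
    rw [← Real.rpow_mul (by linarith)]
    refine Real.rpow_le_rpow_of_exponent_le hN'r ?_
    have h4 : (m : ℝ) * k' ≤ 2 * k := by exact_mod_cast hmk
    have h5 : (2 : ℝ) * (-((c : ℝ) * ((m ^ 2 : ℕ) : ℝ)) / k) =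
        -(2 * (c : ℝ) * (m : ℝ) ^ 2) / k := by
      push_cast
      ring
    rw [h5, hc', div_le_div_iff₀ hk'r hkr]
    have h6 : (0 : ℝ) ≤ (c : ℝ) * m := by positivity
    have h7 : 2 * ((c : ℝ) * m) * ((m : ℝ) * k') ≤ 2 * ((c : ℝ) * m) * (2 * k) :=
      mul_le_mul_of_nonneg_left h4 (by linarith)
    push_cast
    nlinarith
  -- the reduction
  have hPP : ∀ (G : SimpleGraph (Fin N)) (κ : Fin N' → Fin m → Fin N),
      (∀ a e f, e ≠ f → G.Adj (κ a e) (κ a f)) →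
      (∃ S q : ℕ, S ≤ N ^ z ∧ C * q ≤ k ∧ ∃ f, GroupRefutation (k := k) G C q S f) →
      ∃ S q : ℕ, S ≤ N' ^ (2 * z) ∧ 128 * c' * q ≤ k' ∧
        ∃ f, GroupRefutation (k := k') (sup G κ) (128 * c') q S f := by
    rintro G κ hκ ⟨S, q, hS, hq, f, hf⟩
    refine ⟨S, q, ?_, ?_, ?_⟩
    · calc S ≤ N ^ z := hS
        _ ≤ (N' ^ 2) ^ z := Nat.pow_le_pow_left hNN z
        _ = N' ^ (2 * z) := by rw [← pow_mul]
    · have h1 : m * (128 * c' * q) ≤ m * k' := by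
        calc m * (128 * c' * q) = m * (128 * c') * q := by ring
          _ ≤ C * q := Nat.mul_le_mul hCR le_rfl
          _ ≤ k := hq
          _ ≤ m * k' := hkm
      exact Nat.le_of_mul_le_mul_left h1 (by omega)
    · have h1 : GroupRefutation (k := k) G (m * (128 * c')) q S f :=
        group_dvd (Nat.succ_le_of_lt (by positivity)) (by rw [hC]; exact dvd_mul_right _ _) G hf
      exact group_sup hm1 (by omega) hkm hk2 G κ hκ h1
  have h1 := sup_pr (N := N) (N' := N') (s := m * t) (m := m) hm1 p p' hp'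
    (fun G => ∃ S q : ℕ, S ≤ N ^ z ∧ C * q ≤ k ∧ ∃ f, GroupRefutation (k := k) G C q S f)
    (fun G => ∃ S q : ℕ, S ≤ N' ^ (2 * z) ∧ 128 * c' * q ≤ k' ∧
      ∃ f, GroupRefutation (k := k') G (128 * c') q S f) hPP
  have h2 := clq_pr (N := N) (N' := N') (m := m) (t := t) hm1 ht1 hNm hN1 p hp0
  have h3 := hexp _ hp8
  have h4 := hB c' (2 * z) k' N' A p' hc1 (by omega) hz' hC2A hA2 hk3 hpp
  have h5 : 1 / (N' : ℝ) ^ 2 ≤ 1 / (2 * N) := by
    have h6 : (2 * N : ℝ) ≤ (N' : ℝ) ^ 2 := by exact_mod_cast h2N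
    exact one_div_le_one_div_of_le (by linarith) h6
  have h6 : (1 : ℝ) / (2 * N) + 1 / (2 * N) = 1 / N := by
    field_simp
    norm_num
  calc _ ≤ _ := h1
    _ ≤ 1 / (2 * (N : ℝ)) + 1 / (2 * N) :=
      add_le_add (h2.trans h3) (h4.trans h5)
    _ = 1 / N := h6

end Pool.Agent.H82.SV
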