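/-
ROW SV Red (about 90 lines). Super-vertices: a group refutation for `G` with `m R` groups gives one for the super graph with `R` groups.
`κ a e` is the `e`-th vertex of the clique of the super-vertex `a`. Substitution: for a choice u' : Fin k' → Fin N' let (ex u') i := κ (u' (i / m)) (i % m), where i / m < k' since i < k <= m k'.
PROOF. f' s u' := f s (ex u'). split: F' b u' := sum over the a : Fin (m * R) with a / m = b of F a (ex u') (a / m < R). If u', u'' agree on the i' with i' % R = b and a / m = b, then for i with i % (m R) = a: (i / m) % R = (i % (m * R)) / m = b (Nat.mod_mul_right_div_self: i % (m * R) / m = i / m % R), so ex u' i = ex u'' i. The sum over a is the sum over b (Finset.sum_fiberwise).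
 step: for s take P, i, j of h.step. If i / m <> j / m take (i / m, j / m): an edge of the super graph between u' (i/m) and u' (j/m) gives G.Adj (ex u' i) (ex u' j). If i / m = j / m then i % m <> j % m and ex u' i, ex u' j are adjacent by hκ for every u'; take any two different indices of Fin k' (2 <= k').
-/
import Pool.Agent.H49.RG.Stmt

set_option autoImplicit false

namespace Pool.Agent.H82.SV

open Finset Pool.Agent.H49.RG

/-- The super graph: `a` and `b` are adjacent if all vertices of their cliques are adjacent. -/
def sup {V : Type} {N' m : ℕ} (G : SimpleGraph V) (κ : Fin N' → Fin m → V) : SimpleGraph (Fin N') where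
  Adj a b := a ≠ b ∧ ∀ e f, G.Adj (κ a e) (κ b f)
  symm := ⟨fun _ _ h => ⟨h.1.symm, fun e f => (h.2 f e).symm⟩⟩
  loopless := ⟨fun _ h => h.1 rfl⟩

theorem group_sup {N N' k k' m R q S : ℕ} (hm : 1 ≤ m) (hR : 1 ≤ R) (hk : k ≤ m * k')
    (hk2 : 2 ≤ k') (G : SimpleGraph (Fin N)) (κ : Fin N' → Fin m → Fin N)
    (hκ : ∀ a e f, e ≠ f → G.Adj (κ a e) (κ a f)) {f : Fin S → (Fin k → Fin N) → ℝ}
    (h : GroupRefutation (k := k) G (m * R) q S f) :
    ∃ f', GroupRefutation (k := k') (sup G κ) R q S f' := by
  sorry

end Pool.Agent.H82.SV
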