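import Pool.Agent.H49.SV.Sup
import Pool.Agent.H49.RG.Cp
import Pool.Agent.H35.CL.Uny
import Pool.Agent.H9.KR.CF
import Pool.Agent.H9.KR.Gnp

/-!
Random k-clique, all `k ≤ K log N`: the final statement from a base theorem (helper82), with the
super-vertices of H49/SV.
-/

set_option autoImplicit false
set_option linter.unusedSectionVars false

open Finset

namespace Pool.Agent.H82.SV2

open Pool.Agent.H35.CL Pool.Agent.H49.RG Pool.Agent.H9.KR Pool.Agent.H49.SV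

theorem clique_pr {k N : ℕ} (p : unitInterval) (hN0 : 0 < N) (hk : 5 ≤ k)
    (hp3 : (p : ℝ) ≤ (N : ℝ) ^ (-(3 : ℝ) / k)) :
    (SimpleGraph.binomialRandom (Fin N) p).real {G | ¬ G.CliqueFree k} ≤ 1 / N := by
  rw [real_eq_pr p]
  refine (pr_clique (rsub_gnp (V := Fin N) p) k).trans ?_
  rw [Fintype.card_fin]
  have hNr : (1 : ℝ) ≤ N := by exact_mod_cast hN0
  have hN0' : (0 : ℝ) < N := by linarith
  have hk0 : (0 : ℝ) < k := by
    have : 0 < k := by omega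
    exact_mod_cast this
  have h2 : ((N.choose k : ℕ) : ℝ) ≤ (N : ℝ) ^ (k : ℝ) := by
    rw [Real.rpow_natCast]
    exact_mod_cast Nat.choose_le_pow N k
  have h3 : (p : ℝ) ^ (k.choose 2) ≤ (N : ℝ) ^ (-(3 * ((k : ℝ) - 1) / 2)) := by
    calc (p : ℝ) ^ (k.choose 2) ≤ ((N : ℝ) ^ (-(3 : ℝ) / k)) ^ (k.choose 2) :=
          pow_le_pow_left₀ p.2.1 hp3 _
      _ = (N : ℝ) ^ (-(3 * ((k : ℝ) - 1) / 2)) := by
          rw [← Real.rpow_natCast, ← Real.rpow_mul hN0'.le, Nat.cast_choose_two]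
          congr 1
          field_simp
  calc ((N.choose k : ℕ) : ℝ) * (p : ℝ) ^ (k.choose 2) ≤
        (N : ℝ) ^ (k : ℝ) * (N : ℝ) ^ (-(3 * ((k : ℝ) - 1) / 2)) :=
          mul_le_mul h2 h3 (pow_nonneg p.2.1 _) (by positivity)
    _ = (N : ℝ) ^ ((k : ℝ) + -(3 * ((k : ℝ) - 1) / 2)) := (Real.rpow_add hN0' _ _).symm
    _ ≤ (N : ℝ) ^ (-1 : ℝ) := by
        apply Real.rpow_le_rpow_of_exponent_le hNr
        have : (5 : ℝ) ≤ k := by exact_mod_cast hk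
        linarith
    _ = 1 / N := by rw [Real.rpow_neg_one, one_div]

/-- The final statement for a sequence of conditions `k ^ (C3 * C * z) ≤ N` (none if `C3 = 0`). -/
theorem final (C3 c K : ℕ) (hK : 1 ≤ K)
    (hS : ∃ C : ℕ, 2 ≤ C ∧ ∀ (z k N : ℕ) (p : unitInterval), 1 ≤ z → C * z ≤ k → 2 ^ k ≤ N ^ K →
      k ^ (C3 * C * z) ≤ N → (N : ℝ) ^ (-(c : ℝ) / k) ≤ p →
      (SimpleGraph.binomialRandom (Fin N) p).real {G | ∃ S q : ℕ, S ≤ N ^ z ∧ C * q ≤ k ∧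
        ∃ f, GroupRefutation (k := k) G C q S f} ≤ 1 / N) :
    ∃ C : ℕ, 1 ≤ C ∧ ∀ (z k N : ℕ) (p : unitInterval), 1 ≤ z → C * z ≤ k → 2 ^ k ≤ N ^ K →
      k ^ (C3 * C * z) ≤ N → (N : ℝ) ^ (-(c : ℝ) / k) ≤ p →
      (SimpleGraph.binomialRandom (Fin N) p).real {G | ∃ S : ℕ, S ≤ N ^ z ∧
        ((∃ D, ResolutionOf (KClique G k) S D) ∨ ∃ q, C * q ≤ k ∧
          ((∃ a b, CuttingPlanesOf (KClique G k) q S a b) ∨
            ∃ f, GroupRefutation (k := k) G C q S f))} ≤ 1 / N ∧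
      ((p : ℝ) ≤ (N : ℝ) ^ (-(3 : ℝ) / k) →
        (SimpleGraph.binomialRandom (Fin N) p).real {G | ¬ G.CliqueFree k} ≤ 1 / N) := by
  obtain ⟨C, hC2, hC⟩ := hS
  refine ⟨3 * C, by omega, fun z k N p hz hCz hN hkN hp => ?_⟩
  have hCk : 3 * C ≤ k := le_trans (Nat.le_mul_of_pos_right _ hz) hCz
  have hk6 : 6 ≤ k := by omega
  have hN0 : 0 < N := by
    rcases Nat.eq_zero_or_pos N with h | h
    · subst h
      rw [Nat.zero_pow hK] at hN
      exact absurd hN (by have := Nat.two_pow_pos k; omega)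
    · exact h
  have hkN' : k ^ (C3 * C * z) ≤ N := by
    refine le_trans (Nat.pow_le_pow_right (by omega) ?_) hkN
    have : C3 * C ≤ C3 * (3 * C) := Nat.mul_le_mul_left _ (by omega)
    exact Nat.mul_le_mul_right _ this
  refine ⟨?_, clique_pr p hN0 (by omega)⟩
  refine le_trans (MeasureTheory.measureReal_mono ?_)
    (hC z k N p hz (by nlinarith) hN hkN' hp)
  rintro G ⟨S, hS, h | ⟨q, hq, h | ⟨f, hf⟩⟩⟩
  · obtain ⟨D, hD⟩ := h
    obtain ⟨a, b, hab⟩ := resolution_cutting hD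
    obtain ⟨f, hf⟩ := cutting_group (R := C) (by omega) (by omega) G hab
    exact ⟨S, 2, hS, by omega, f, hf⟩
  · obtain ⟨a, b, hab⟩ := h
    obtain ⟨f, hf⟩ := cutting_group (R := C) (by omega) (by omega) G hab
    exact ⟨S, q, hS, by nlinarith, f, hf⟩
  · exact ⟨S, q, hS, by nlinarith, f, coarse (by omega) ⟨3, by ring⟩ G hf⟩

theorem main (C1 C2 C3 e : ℕ) (hB : Base C1 C2 C3 e) (c K : ℕ) (hc : 1 ≤ c) (hK : 1 ≤ K) :
    ∃ C : ℕ, 1 ≤ C ∧ ∀ (z k N : ℕ) (p : unitInterval), 1 ≤ z → C * z ≤ k → 2 ^ k ≤ N ^ K →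
      k ^ (C3 * C * z) ≤ N → (N : ℝ) ^ (-(c : ℝ) / k) ≤ p →
      (SimpleGraph.binomialRandom (Fin N) p).real {G | ∃ S : ℕ, S ≤ N ^ z ∧
        ((∃ D, ResolutionOf (KClique G k) S D) ∨ ∃ q, C * q ≤ k ∧
          ((∃ a b, CuttingPlanesOf (KClique G k) q S a b) ∨
            ∃ f, GroupRefutation (k := k) G C q S f))} ≤ 1 / N ∧
      ((p : ℝ) ≤ (N : ℝ) ^ (-(3 : ℝ) / k) →
        (SimpleGraph.binomialRandom (Fin N) p).real {G | ¬ G.CliqueFree k} ≤ 1 / N) :=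
  final C3 c K hK (super C1 C2 C3 e hB c K hc hK)

end Pool.Agent.H82.SV2
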